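import Pool.Agent.X180.CD.Fin
import Pool.Agent.Y221.PB.Dom

/-!
All curves in a surface: degree and genus.
-/

set_option autoImplicit false

open FF MvPolynomial Pool.Agent.W602.GT Pool.Agent.Y221.PB
open Pool.Agent.W603.PV (pht pht_scale)
open Pool.Agent.W603.LV (canDeg)
open Pool.Agent.Y216 (OnVar)

namespace Pool.Agent.X180.CD

variable {k : Type} [Field k] [IsAlgClosed k] [CharZero k]

/-- **All curves.** -/
theorem all_curves {L : Type} [Field L] [Algebra k L] {M ρ : ℕ} {x : Fin (M + 1) → L}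
    (hgen : coords k x = ⊤) (hdim : Algebra.trdeg k L = (2 : ℕ)) (h : CoverBound k ρ x) :
    ∃ A B : ℕ, ∀ (K E : Type) [Field K] [Field E] [Algebra k K] [Algebra k E] [Algebra K E]
      [IsScalarTower k K E] [FiniteDimensional K E] [IsFF k K] [IsFF k E],
      Module.finrank K E ≤ ρ → ∀ z : Fin (M + 1) → E, OnVar k x z → coords k z = ⊤ →
        pht k z ≤ A * max (canDeg k K) 0 + B := by
  obtain ⟨G, hG, hGx, A, hA⟩ := h
  obtain ⟨B, hB⟩ := exists_bound hgen hdim hG hGx
  refine ⟨A, B, fun K E _ _ _ _ _ _ _ _ _ hr z hz hgz => ?_⟩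
  have h1 : (0 : ℤ) ≤ A * max (canDeg k K) 0 :=
    mul_nonneg (Nat.cast_nonneg _) (le_max_right _ _)
  by_cases hzG : val z G = 0
  · have h2 := hB E z (Function.ne_iff.2 hz.1) hgz hzG hz.2
    linarith
  · have h2 := hA K E hr z hz hzG
    have h3 : (0 : ℤ) ≤ B := Nat.cast_nonneg _
    linarith

end Pool.Agent.X180.CD
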