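import Pool.Agent.X180.CD.Defs
import Pool.Agent.X180.CD.Main
import Pool.Agent.Y221.AH.Im

/-!
The canonical degree is bounded by a multiple of the degree.
-/

set_option autoImplicit false
set_option linter.unusedSectionVars false

open FF MvPolynomial Pool.Agent.W602.GT
open Pool.Agent.W603.PV (pht pht_scale pord)

namespace Pool.Agent.X180.CD

variable {k : Type} [Field k] {n : ℕ} {E : Type} [Field E] [Algebra k E]

theorem grad_mul {z : Fin (n + 1) → E} {a G : MvPolynomial (Fin (n + 1)) k} (hG : val z G = 0) :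
    grad z (a * G) = val z a • grad z G := by
  funext j
  unfold grad val
  unfold val at hG
  rw [Derivation.leibniz, map_add, smul_eq_mul, smul_eq_mul, map_mul, map_mul, hG, zero_mul,
    add_zero]
  rfl

theorem grad_sum {ι : Type} {z : Fin (n + 1) → E} (T : Finset ι)
    (f : ι → MvPolynomial (Fin (n + 1)) k) : grad z (∑ i ∈ T, f i) = ∑ i ∈ T, grad z (f i) := by
  funext j
  unfold grad val
  rw [map_sum, map_sum, Finset.sum_apply]

/-- finitely many forms -/
theorem exists_gens {L : Type} [Field L] [Algebra k L] (x : Fin (n + 1) → L) :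
    ∃ S : Finset (MvPolynomial (Fin (n + 1)) k), (∀ s ∈ S, IsForm s ∧ val x s = 0) ∧
      ∀ (E : Type) [Field E] [Algebra k E] (z : Fin (n + 1) → E),
        (∀ G : MvPolynomial (Fin (n + 1)) k, IsForm G → val x G = 0 → val z G = 0) →
        ∀ G : MvPolynomial (Fin (n + 1)) k, IsForm G → val x G = 0 →
          grad z G ∈ Submodule.span E (grad z '' (S : Set (MvPolynomial (Fin (n + 1)) k))) := by
  classical
  let T : Set (MvPolynomial (Fin (n + 1)) k) := {G | IsForm G ∧ val x G = 0}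
  have hfg : (Submodule.span (MvPolynomial (Fin (n + 1)) k) T).FG :=
    (isNoetherianRing_iff_ideal_fg _).1 inferInstance _
  obtain ⟨S, hS, hspan⟩ := (Submodule.fg_span_iff_fg_span_finset_subset T).1 hfg
  refine ⟨S, fun s hs => hS hs, fun E _ _ z hz G hG hxG => ?_⟩
  have h1 : G ∈ Submodule.span (MvPolynomial (Fin (n + 1)) k) (S : Set (MvPolynomial (Fin (n + 1)) k)) := by
    rw [← hspan]
    exact Submodule.subset_span ⟨hG, hxG⟩
  rw [Submodule.mem_span_finset] at h1
  obtain ⟨f, -, hf⟩ := h1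
  rw [← hf, grad_sum]
  refine Submodule.sum_mem _ fun s hs => ?_
  rw [smul_eq_mul, grad_mul (hz s (hS hs).1 (hS hs).2)]
  exact Submodule.smul_mem _ _ (Submodule.subset_span ⟨s, hs, rfl⟩)

/-- the polynomial minors -/
noncomputable def pmin {c : ℕ} (φ : Fin c → MvPolynomial (Fin (n + 1)) k)
    (J : Fin c → Fin (n + 1)) : MvPolynomial (Fin (n + 1)) k :=
  (Matrix.of fun i l => pderiv (J l) (φ i)).det

theorem pmin_hom {c : ℕ} {φ : Fin c → MvPolynomial (Fin (n + 1)) k} {d : Fin c → ℕ}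
    (hφ : ∀ i, (φ i).IsHomogeneous (d i)) (J : Fin c → Fin (n + 1)) :
    (pmin φ J).IsHomogeneous (∑ i, (d i - 1)) := by
  unfold pmin
  rw [Matrix.det_apply]
  refine IsHomogeneous.sum _ _ _ fun σ _ => ?_
  have h1 : (∏ i, (Matrix.of fun i l => pderiv (J l) (φ i)) (σ i) i).IsHomogeneous
      (∑ i, (d (σ i) - 1)) := IsHomogeneous.prod _ _ _ fun i _ => (hφ (σ i)).pderiv
  have h2 : ∑ i, (d (σ i) - 1) = ∑ i, (d i - 1) := Equiv.sum_comp σ fun i => d i - 1
  rw [h2] at h1
  rcases Int.units_eq_one_or (Equiv.Perm.sign σ) with h | h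
  · rw [h, one_smul]
    exact h1
  · rw [h]
    simpa using h1.neg

theorem val_pmin {c : ℕ} (φ : Fin c → MvPolynomial (Fin (n + 1)) k) (J : Fin c → Fin (n + 1))
    (z : Fin (n + 1) → E) :
    val z (pmin φ J) = (Matrix.of fun i l => grad z (φ i) (J l)).det := by
  unfold pmin val
  rw [AlgHom.map_det]
  rfl

/-- heights of images -/
theorem pht_im_le [IsAlgClosed k] [CharZero k] {M : ℕ}
    {G : Fin (M + 1) → MvPolynomial (Fin (n + 1)) k} {e : ℕ} (hG : ∀ j, (G j).IsHomogeneous e)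
    [IsFF k E] {u : Fin (n + 1) → E} (hu : ∃ j, u j ≠ 0) (hGu : ∃ j, val u (G j) ≠ 0) :
    pht k (fun j => val u (G j)) ≤ e * pht k u := by
  classical
  obtain ⟨T1, hT1⟩ := Pool.Agent.W603.LV.exists_supp (k := k) Finset.univ u
  obtain ⟨T2, hT2⟩ := Pool.Agent.W603.LV.exists_supp (k := k) Finset.univ fun j => val u (G j)
  rw [Pool.Agent.Y221.AH.pht_sum hu (T1 ∪ T2) fun j P hP =>
      Finset.mem_union_left _ (hT1 j (Finset.mem_univ j) P hP),
    Pool.Agent.Y221.AH.pht_sum hGu (T1 ∪ T2) fun j P hP =>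
      Finset.mem_union_right _ (hT2 j (Finset.mem_univ j) P hP), Finset.mul_sum]
  refine Finset.sum_le_sum fun P _ => ?_
  have h1 : e * pord P u ≤ pord P fun j => val u (G j) := by
    rw [Pool.Agent.Y221.AH.pord_le_iff P hGu]
    intro j
    exact Pool.Agent.W603.PV.ge_form P u (hG j) fun α _ => Pool.Agent.W603.LV.Ge.const _
  linarith

theorem exists_phi {c : ℕ} {V : Type} [AddCommGroup V] [Module E V] {σ : Type} {S : Set σ}
    {g : σ → V} {b : Fin c → V} (hb : LinearIndependent E b)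
    (hspan : Submodule.span E (Set.range b) = Submodule.span E (g '' S)) :
    ∃ φ : Fin c → σ, (∀ i, φ i ∈ S) ∧ ∃ T : Matrix (Fin c) (Fin c) E, T.det ≠ 0 ∧
      ∀ i, ∑ l, T i l • g (φ l) = b i := by
  classical
  obtain ⟨B, hBS, hBspan, hB⟩ := exists_linearIndependent E (g '' S)
  have heq : Submodule.span E (Set.range ((↑) : B → V)) = Submodule.span E (Set.range b) := by
    rw [Subtype.range_coe, hBspan, hspan]
  let v := Module.Basis.span hb
  let v' := (Module.Basis.span hB).map (LinearEquiv.ofEq _ _ heq)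
  let e : Fin c ≃ B := v.indexEquiv v'
  choose φ hφS hφ using fun i : Fin c => hBS (e i).2
  refine ⟨φ, hφS, ?_⟩
  have hrange : Set.range (fun l => g (φ l)) = B := by
    ext w
    constructor
    · rintro ⟨l, rfl⟩
      simp only [hφ]
      exact (e l).2
    · intro hw
      obtain ⟨l, hl⟩ := e.surjective ⟨w, hw⟩
      exact ⟨l, by simp only [hφ]; rw [hl]⟩
  have hmem : ∀ i, ∃ t : Fin c → E, ∑ l, t l • g (φ l) = b i := by
    intro i
    rw [← Submodule.mem_span_range_iff_exists_fun, hrange, hBspan, ← hspan]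
    exact Submodule.subset_span ⟨i, rfl⟩
  choose T hT using hmem
  refine ⟨Matrix.of T, fun hdet => ?_, hT⟩
  obtain ⟨w, hw0, hw⟩ := Matrix.exists_vecMul_eq_zero_iff.2 hdet
  apply hw0
  have h1 : ∑ i, w i • b i = 0 := by
    have h2 : ∀ i, w i • b i = ∑ l, (w i * T i l) • g (φ l) := by
      intro i
      rw [← hT i, Finset.smul_sum]
      exact Finset.sum_congr rfl fun l _ => smul_smul _ _ _
    simp_rw [h2]
    rw [Finset.sum_comm]
    refine Finset.sum_eq_zero fun l _ => ?_
    rw [← Finset.sum_smul]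
    have h3 := congrFun hw l
    have h4 : ∑ i, w i * T i l = 0 := h3
    rw [h4, zero_smul]
  have h5 := Fintype.linearIndependent_iff.1 hb w h1
  exact funext h5

variable [IsAlgClosed k] [CharZero k]

/-- **The canonical degree.** -/
theorem can_bound {c : ℕ} {L : Type} [Field L] [Algebra k L] (x : Fin (c + 2 + 1) → L) :
    ∃ D : ℕ, ∀ (E : Type) [Field E] [Algebra k E] [IsFF k E] (z : Fin (c + 2 + 1) → E) (κ : ℤ),
      Pool.Agent.Y216.OnVar k x z → IsCanDegree k x z κ → κ ≤ D * pht k z := by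
  classical
  obtain ⟨S, hS, hgen⟩ := exists_gens (k := k) x
  choose! d hd using fun s (hs : s ∈ S) => (hS s hs).1
  refine ⟨c * ∑ s ∈ S, d s, fun E _ _ _ z κ hz hκ => ?_⟩
  obtain ⟨b, m, u, hb, hli, hsp, -, rfl⟩ := hκ
  have hnn : 0 ≤ pht k z := Pool.Agent.Y221.AH.pht_nonneg hz.1
  have hspan : Submodule.span E (Set.range fun i => grad z (b i)) =
      Submodule.span E (grad z '' (S : Set (MvPolynomial (Fin (c + 2 + 1)) k))) := by
    apply le_antisymm
    · rw [Submodule.span_le]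
      rintro _ ⟨i, rfl⟩
      exact hgen E z hz.2 (b i) (hb i).1 (hb i).2
    · rw [Submodule.span_le]
      rintro _ ⟨s, hs, rfl⟩
      exact hsp s (hS s hs).1 (hS s hs).2
  obtain ⟨φ, hφ, T, hT0, hT⟩ := exists_phi hli hspan
  have hmin : ∀ J : Fin c → Fin (c + 2 + 1),
      (Matrix.of fun i l => grad z (b i) (J l)).det = T.det * val z (pmin φ J) := by
    intro J
    rw [val_pmin, ← Matrix.det_mul]
    congr 1
    ext i l
    rw [Matrix.mul_apply, Matrix.of_apply, ← hT i, Finset.sum_apply]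
    rfl
  have h1 : (fun t => (Matrix.of fun i l => grad z (b i) (u t l)).det) =
      fun t => T.det * val z (pmin φ (u t)) := funext fun t => hmin (u t)
  rw [h1]
  by_cases h0 : ∃ t, val z (pmin φ (u t)) ≠ 0
  · rw [pht_scale (k := k) h0 hT0]
    have h2 : pht k (fun t => val z (pmin φ (u t))) ≤ (∑ i, (d (φ i) - 1) : ℕ) * pht k z :=
      pht_im_le (G := fun t => pmin φ (u t))
        (fun t => pmin_hom (fun i => hd (φ i) (hφ i)) (u t)) hz.1 h0
    have h3 : ∑ i, (d (φ i) - 1) ≤ c * ∑ s ∈ S, d s := by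
      calc ∑ i, (d (φ i) - 1) ≤ ∑ _i : Fin c, ∑ s ∈ S, d s :=
            Finset.sum_le_sum fun i _ => (Nat.sub_le _ _).trans
              (Finset.single_le_sum (f := d) (fun _ _ => Nat.zero_le _) (hφ i))
        _ = c * ∑ s ∈ S, d s := by simp
    have h4 : ((∑ i, (d (φ i) - 1) : ℕ) : ℤ) * pht k z ≤ ((c * ∑ s ∈ S, d s : ℕ) : ℤ) * pht k z :=
      mul_le_mul_of_nonneg_right (by exact_mod_cast h3) hnn
    linarith
  · push Not at h0
    have h5 : (fun t => T.det * val z (pmin φ (u t))) = fun _ => 0 := by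
      funext t
      rw [h0 t, mul_zero]
    have h6 : pht k (fun _ : Fin (m + 1) => (0 : E)) = 0 := by
      unfold Pool.Agent.W603.PV.pht Pool.Agent.W603.PV.pord
      have : IsEmpty {j : Fin (m + 1) // (0 : E) ≠ 0} := ⟨fun j => j.2 rfl⟩
      have h8 : ∀ P : Place k E, (⨅ _j : {j : Fin (m + 1) // (0 : E) ≠ 0}, P.ord (0 : E)) = 0 := by
        intro P
        rw [iInf, Set.range_eq_empty, Int.csInf_empty]
      simp_rw [h8]
      simp
    rw [h5, h6]
    have h7 : (0 : ℤ) ≤ ((c * ∑ s ∈ S, d s : ℕ) : ℤ) * pht k z :=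
      mul_nonneg (Nat.cast_nonneg _) hnn
    linarith

end Pool.Agent.X180.CD
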