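import Pool.Agent.X180.CD.Spec
import Pool.Agent.W602.GT.War
import Pool.Agent.W602.GT.MordDefs
import Pool.Agent.W603.PV.Main

/-!
Curves in a surface and in a hypersurface: affine charts and minimal primes.
-/

set_option autoImplicit false

open FF MvPolynomial Pool.Agent.W602.GT

namespace Pool.Agent.X180.CD

variable {k : Type} [Field k] {n : ℕ}

/-- the affine coordinates -/
def dh {K : Type} [Field K] (y : Fin (n + 1) → K) (j : Fin (n + 1)) (i : Fin (n + 1)) : K :=
  y i / y j

theorem dh_scale {K : Type} [Field K] {y : Fin (n + 1) → K} {j : Fin (n + 1)} (hj : y j ≠ 0) :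
    y = fun i => y j * dh y j i := by
  funext i
  unfold dh
  field_simp

/-- the homogenisation -/
noncomputable def hmg (j : Fin (n + 1)) (g : MvPolynomial (Fin (n + 1)) k) :
    MvPolynomial (Fin (n + 1)) k :=
  ∑ i ∈ Finset.range (g.totalDegree + 1), X j ^ (g.totalDegree - i) * homogeneousComponent i g

theorem hmg_form (j : Fin (n + 1)) (g : MvPolynomial (Fin (n + 1)) k) : IsForm (hmg j g) := by
  refine ⟨g.totalDegree, ?_⟩
  refine IsHomogeneous.sum _ _ _ fun i hi => ?_
  have h1 : g.totalDegree = (g.totalDegree - i) + i := by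
    have := Finset.mem_range.1 hi
    omega
  conv => arg 2; rw [h1]
  refine IsHomogeneous.mul ?_ (homogeneousComponent_isHomogeneous i g)
  have h2 := (isHomogeneous_X k j).pow (g.totalDegree - i)
  rwa [one_mul] at h2

theorem hmg_val {K : Type} [Field K] [Algebra k K] {y : Fin (n + 1) → K} {j : Fin (n + 1)}
    (hj : y j ≠ 0) (g : MvPolynomial (Fin (n + 1)) k) :
    val y (hmg j g) = y j ^ g.totalDegree * aeval (dh y j) g := by
  unfold val hmg
  rw [map_sum]
  conv_rhs => arg 2; rw [← sum_homogeneousComponent g]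
  rw [map_sum, Finset.mul_sum]
  refine Finset.sum_congr rfl fun i hi => ?_
  rw [map_mul, map_pow, aeval_X]
  have h1 : aeval y (homogeneousComponent i g) =
      y j ^ i * aeval (dh y j) (homogeneousComponent i g) := by
    conv_lhs => rw [dh_scale hj]
    exact Pool.Agent.W603.PV.aeval_scale (homogeneousComponent_isHomogeneous i g) _ _
  rw [h1, ← mul_assoc, ← pow_add]
  congr 2
  have := Finset.mem_range.1 hi
  omega

/-- Specialisations in affine charts. -/
theorem sp_chart {K L : Type} [Field K] [Algebra k K] [Field L] [Algebra k L]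
    {y : Fin (n + 1) → K} {z : Fin (n + 1) → L} {j : Fin (n + 1)} (hy : y j ≠ 0) (hz : z j ≠ 0)
    (hsp : ∀ G : MvPolynomial (Fin (n + 1)) k, IsForm G → val y G = 0 → val z G = 0)
    (g : MvPolynomial (Fin (n + 1)) k) (hg : aeval (dh y j) g = 0) : aeval (dh z j) g = 0 := by
  have h1 : val y (hmg j g) = 0 := by rw [hmg_val hy, hg, mul_zero]
  have h2 := hsp _ (hmg_form j g) h1
  rw [hmg_val hz] at h2
  exact (mul_eq_zero.1 h2).resolve_left (pow_ne_zero _ hz)

theorem form_chart {K : Type} [Field K] [Algebra k K] {y : Fin (n + 1) → K} {j : Fin (n + 1)}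
    (hy : y j ≠ 0) {G : MvPolynomial (Fin (n + 1)) k} (hG : IsForm G) :
    val y G = 0 ↔ aeval (dh y j) G = 0 := by
  obtain ⟨d, hd⟩ := hG
  have h1 : val y G = y j ^ d * aeval (dh y j) G := by
    unfold val
    conv_lhs => rw [dh_scale hy]
    exact Pool.Agent.W603.PV.aeval_scale hd _ _
  rw [h1, mul_eq_zero]
  exact or_iff_right (pow_ne_zero _ hy)

theorem alg_chart {K : Type} [Field K] [Algebra k K] {y : Fin (n + 1) → K}
    (hgen : coords k y = ⊤) {j : Fin (n + 1)} (hy : y j ≠ 0) :
    IntermediateField.adjoin k (Set.range (dh y j)) = ⊤ := by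
  rw [eq_top_iff, ← hgen]
  refine (coords_eq (k := k) y hy).trans ?_
  rw [IntermediateField.adjoin_le_iff]
  rintro _ ⟨l, rfl⟩
  exact IntermediateField.subset_adjoin k _ ⟨j.succAbove l, rfl⟩

theorem alg_top {K σ : Type} [Field K] [Algebra k K] {u : σ → K}
    (h : IntermediateField.adjoin k (Set.range u) = ⊤) :
    Algebra.IsAlgebraic (Algebra.adjoin k (Set.range u)) K := by
  refine alg_adjoin ?_
  rw [h]
  infer_instance

/-- **Minimal primes.** The equations of the curves in a surface and in a hypersurface form minimal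
primes of one ideal. -/
theorem curve_min {K : Type} [Field K] [Algebra k K] {y : Fin (n + 1) → K}
    (hgen : coords k y = ⊤) (hdim : Algebra.trdeg k K = (2 : ℕ)) {j : Fin (n + 1)} (hy : y j ≠ 0)
    {H : MvPolynomial (Fin (n + 1)) k} (hH : IsForm H) (hyH : val y H ≠ 0) {L : Type} [Field L]
    [Algebra k L] {z : Fin (n + 1) → L} (hz : z j ≠ 0) (hgz : coords k z = ⊤)
    (hdz : Algebra.trdeg k L = (1 : ℕ)) (hzH : val z H = 0)
    (hsp : ∀ G : MvPolynomial (Fin (n + 1)) k, IsForm G → val y G = 0 → val z G = 0) :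
    RingHom.ker (aeval (R := k) (dh z j)) ∈
      (RingHom.ker (aeval (R := k) (dh y j)) ⊔ Ideal.span {H}).minimalPrimes := by
  have hprime : (RingHom.ker (aeval (R := k) (dh z j))).IsPrime := RingHom.ker_isPrime _
  have hle : RingHom.ker (aeval (R := k) (dh y j)) ⊔ Ideal.span {H} ≤
      RingHom.ker (aeval (R := k) (dh z j)) := by
    refine sup_le (fun g hg => ?_) ?_
    · exact sp_chart hy hz hsp g hg
    · rw [Ideal.span_singleton_le_iff_mem]
      exact (form_chart hz hH).1 hzH
  obtain ⟨Q, hQ, hQz⟩ := Ideal.exists_minimalPrimes_le hle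
  have hQp : Q.IsPrime := hQ.1.1
  have hQle : RingHom.ker (aeval (R := k) (dh y j)) ⊔ Ideal.span {H} ≤ Q := hQ.1.2
  let E := FractionRing (MvPolynomial (Fin (n + 1)) k ⧸ Q)
  let x : Fin (n + 1) → E := fun i =>
    algebraMap (MvPolynomial (Fin (n + 1)) k ⧸ Q) E (Ideal.Quotient.mk Q (X i))
  have hx : ∀ g : MvPolynomial (Fin (n + 1)) k, aeval x g =
      algebraMap (MvPolynomial (Fin (n + 1)) k ⧸ Q) E (Ideal.Quotient.mk Q g) := by
    intro g
    let φ : MvPolynomial (Fin (n + 1)) k →ₐ[k] E :=
      (IsScalarTower.toAlgHom k (MvPolynomial (Fin (n + 1)) k ⧸ Q) E).comp (Ideal.Quotient.mkₐ k Q)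
    have h1 : aeval x = φ := by
      apply MvPolynomial.algHom_ext
      intro i
      rw [aeval_X]
      rfl
    rw [h1]
    rfl
  have hx0 : ∀ g : MvPolynomial (Fin (n + 1)) k, aeval x g = 0 ↔ g ∈ Q := by
    intro g
    rw [hx, map_eq_zero_iff _ (IsFractionRing.injective _ _), Ideal.Quotient.eq_zero_iff_mem]
  have hxtop : IntermediateField.adjoin k (Set.range x) = ⊤ := by
    rw [eq_top_iff]
    intro e _
    obtain ⟨a, b, hb, rfl⟩ := IsFractionRing.div_surjective
      (A := MvPolynomial (Fin (n + 1)) k ⧸ Q) e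
    obtain ⟨a, rfl⟩ := Ideal.Quotient.mk_surjective a
    obtain ⟨b, rfl⟩ := Ideal.Quotient.mk_surjective b
    rw [← hx, ← hx]
    have hmem : ∀ g : MvPolynomial (Fin (n + 1)) k,
        aeval x g ∈ IntermediateField.adjoin k (Set.range x) := by
      intro g
      have h1 : aeval x g ∈ Algebra.adjoin k (Set.range x) := by
        rw [Algebra.adjoin_range_eq_range_aeval]
        exact ⟨g, rfl⟩
      exact IntermediateField.algebra_adjoin_le_adjoin k _ h1
    exact div_mem (hmem a) (hmem b)
  have halgx := alg_top hxtop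
  have halgz := alg_top (alg_chart hgz hz)
  -- the dimension of `Q` is at most one
  have hE : Algebra.trdeg k E ≤ Algebra.trdeg k L := by
    rw [hdz]
    by_contra hcon
    rw [not_le] at hcon
    have h2 : Algebra.trdeg k K ≤ Algebra.trdeg k E := by
      rw [hdim, show (2 : ℕ) = Nat.succ 1 from rfl, Cardinal.nat_succ]
      exact Order.succ_le_of_lt hcon
    have h4 := spec_eq (u := dh y j) halgx h2 (fun g hg => (hx0 g).2 (hQle (Ideal.mem_sup_left hg)))
      H ((hx0 H).2 (hQle (Ideal.mem_sup_right (Ideal.mem_span_singleton_self H))))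
    exact hyH ((form_chart hy hH).2 h4)
  have hfin : RingHom.ker (aeval (R := k) (dh z j)) ≤ Q := fun g hg => (hx0 g).1
    (spec_eq (u := x) (v := dh z j) halgz hE (fun g hg => hQz ((hx0 g).1 hg)) g hg)
  rwa [le_antisymm hfin hQz]

end Pool.Agent.X180.CD
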