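import Pool.Agent.Y221.PB.Dom

/-!
Definitions: the canonical degrees of the curves in a smooth surface in projective space.
-/

set_option autoImplicit false

open FF Pool.Agent.W602.GT
open Pool.Agent.W603.PV (pht)

namespace Pool.Agent.X180.CD

/-- The gradient at the point `z` of the polynomial `G`. -/
noncomputable def grad {k : Type} [Field k] {n : ℕ} {E : Type} [Field E] [Algebra k E]
    (z : Fin (n + 1) → E) (G : MvPolynomial (Fin (n + 1)) k) : Fin (n + 1) → E :=
  fun j => val z (MvPolynomial.pderiv j G)

/-- Let `X` be a smooth surface in the projective space of dimension `c + 2`, with generic point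
`x`, and `C` a curve in `X`, with generic point `z`. The integer `κ` is the canonical degree `K_X · C`:
`κ = deg (γ ∘ f) - 3 deg C`, where `f : C' → X` is the normalization of `C` and `γ` is the Gauss map of
`X` (one has `K_X = γ ^* O(1) - 3 H`). Here `γ (z)` is given by the Plücker coordinates, in any order
`u`, of the space spanned by the gradients at `z` of all forms which vanish on `X`, with a basis which
consists of the gradients of `c` forms `b i`. -/
def IsCanDegree (k : Type) [Field k] {c : ℕ} {L : Type} [Field L] [Algebra k L]
    (x : Fin (c + 2 + 1) → L) {E : Type} [Field E] [Algebra k E] (z : Fin (c + 2 + 1) → E)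
    (κ : ℤ) : Prop :=
  ∃ (b : Fin c → MvPolynomial (Fin (c + 2 + 1)) k) (m : ℕ)
    (u : Fin (m + 1) → Fin c → Fin (c + 2 + 1)),
    (∀ i, IsForm (b i) ∧ val x (b i) = 0) ∧ LinearIndependent E (fun i => grad z (b i)) ∧
    (∀ G : MvPolynomial (Fin (c + 2 + 1)) k, IsForm G → val x G = 0 →
      grad z G ∈ Submodule.span E (Set.range fun i => grad z (b i))) ∧
    Function.Surjective u ∧
    κ = pht k (fun t => (Matrix.of fun i l => grad z (b i) (u t l)).det) - 3 * pht k z

end Pool.Agent.X180.CD
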