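import Pool.Agent.X180.CD.Defs
import Pool.Agent.W602.GT.MordDefs

/-!
Definition: smooth surfaces in projective space.
-/

set_option autoImplicit false

open FF Pool.Agent.W602.GT

namespace Pool.Agent.X180.CD

/-- The variety `X` of codimension `c` in projective space with generic point `x` is smooth: the
gradients of the forms which vanish on `X` span a space of dimension `c` at each point of `X`. -/
def IsSmooth (k : Type) [Field k] {n : ℕ} (c : ℕ) {L : Type} [Field L] [Algebra k L]
    (x : Fin (n + 1) → L) : Prop :=
  ∀ p ∈ VarPts k x, Module.finrank k
    (Submodule.span k {v | ∃ G : MvPolynomial (Fin (n + 1)) k, IsForm G ∧ val x G = 0 ∧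
      v = grad p G}) = c

end Pool.Agent.X180.CD
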