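import Pool.Agent.X180.CD.Can
import Pool.Agent.X180.CD.Smooth
import Pool.Agent.X333.DC.FimT

/-!
Existence of the canonical degree for smooth surfaces.
-/

set_option autoImplicit false
set_option linter.unusedSectionVars false

open FF MvPolynomial Pool.Agent.W602.GT
open Pool.Agent.W603.PV (pht pht_scale pord)
open Pool.Agent.Y216 (OnVar)

namespace Pool.Agent.X180.CD

/-- independent rows have a nonzero minor -/
theorem exists_minor {K : Type} [Field K] {t N : ℕ} {v : Fin t → Fin N → K}
    (hv : LinearIndependent K v) :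
    ∃ J : Fin t → Fin N, (Matrix.of fun i l => v i (J l)).det ≠ 0 := by
  classical
  let A : Matrix (Fin t) (Fin N) K := Matrix.of v
  have hr : A.rank = t := by
    have h1 := LinearIndependent.rank_matrix (M := A) hv
    rw [h1, Fintype.card_fin]
  have hcols : Submodule.span K (Set.range A.col) = ⊤ := by
    apply Submodule.eq_top_of_finrank_eq
    rw [← Matrix.rank_eq_finrank_span_cols, hr]
    simp
  obtain ⟨B, hBS, hBspan, hB⟩ := exists_linearIndependent K (Set.range A.col)
  have heq : ⊤ ≤ Submodule.span K (Set.range ((↑) : B → Fin t → K)) := by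
    rw [Subtype.range_coe, hBspan, hcols]
  let v' := Module.Basis.mk hB heq
  let e : Fin t ≃ B := (Pi.basisFun K (Fin t)).indexEquiv v'
  choose J hJ using fun i : Fin t => hBS (e i).2
  refine ⟨J, ?_⟩
  have h2 : LinearIndependent K fun l => ((e l : B) : Fin t → K) :=
    hB.comp e e.injective
  have h3 : (Matrix.of fun i l => v i (J l)) = (Matrix.of fun l => ((e l : B) : Fin t → K)).transpose := by
    ext i l
    rw [Matrix.transpose_apply, Matrix.of_apply, Matrix.of_apply, ← hJ l]
    rfl
  rw [h3, Matrix.det_transpose]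
  have h4 := (Matrix.linearIndependent_rows_iff_isUnit
    (A := Matrix.of fun l => ((e l : B) : Fin t → K))).1 h2
  exact ((Matrix.isUnit_iff_isUnit_det _).1 h4).ne_zero

/-- a nonzero minor gives independent rows -/
theorem indep_of_minor {K : Type} [Field K] {t N : ℕ} {v : Fin t → Fin N → K}
    {J : Fin t → Fin N} (h : (Matrix.of fun i l => v i (J l)).det ≠ 0) :
    LinearIndependent K v := by
  rw [Fintype.linearIndependent_iff]
  intro w hw
  have h1 : Matrix.vecMul w (Matrix.of fun i l => v i (J l)) = 0 := by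
    funext l
    have h2 := congrFun hw (J l)
    rw [Finset.sum_apply] at h2
    exact h2
  exact congrFun (Matrix.eq_zero_of_vecMul_eq_zero h h1)

variable {k : Type} [Field k] [IsAlgClosed k] [CharZero k]

theorem exists_can {c : ℕ} {L : Type} [Field L] [Algebra k L] {x : Fin (c + 2 + 1) → L}
    (hs : IsSmooth k c x) {E : Type} [Field E] [Algebra k E] {z : Fin (c + 2 + 1) → E}
    (hz : OnVar k x z) : ∃ κ, IsCanDegree k x z κ := by
  classical
  have hz0 : z ≠ 0 := Function.ne_iff.2 hz.1
  have hsub : ∀ p ∈ VarPts k z, p ∈ VarPts k x := fun p hp =>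
    ⟨hp.1, fun G hG hxG => hp.2 G hG (hz.2 G hG hxG)⟩
  obtain ⟨p, hp, -⟩ := Pool.Agent.X333.DC.varPts_sub (k := k) (H := 1) hz0 (by
    unfold val
    rw [map_one]
    exact one_ne_zero)
  have hfin := hs p (hsub p hp)
  obtain ⟨B, hBS, hBspan, hB⟩ := exists_linearIndependent k {v | ∃ G : MvPolynomial
    (Fin (c + 2 + 1)) k, IsForm G ∧ val x G = 0 ∧ v = grad p G}
  have hcard : Nat.card B = c := by
    have h1 := Module.finrank_eq_nat_card_basis (Module.Basis.span hB)
    rw [Subtype.range_coe, hBspan, hfin] at h1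
    exact h1.symm
  have hBfin : B.Finite := hB.setFinite
  have : Finite B := hBfin
  let e : B ≃ Fin c := Finite.equivFinOfCardEq hcard
  choose b hbf hbx hb using fun i : Fin c => hBS (e.symm i).2
  have hlip : LinearIndependent k fun i => grad p (b i) := by
    have h1 : (fun i => grad p (b i)) = fun i => ((e.symm i : B) : Fin (c + 2 + 1) → k) :=
      funext fun i => (hb i).symm
    rw [h1]
    exact hB.comp e.symm e.symm.injective
  have hform : ∀ {t : ℕ} (φ : Fin t → MvPolynomial (Fin (c + 2 + 1)) k) (J : Fin t → Fin (c + 2 + 1)),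
      (∀ i, IsForm (φ i)) → IsForm (pmin φ J) := by
    intro t φ J hφ
    choose d hd using hφ
    exact ⟨_, pmin_hom hd J⟩
  obtain ⟨J, hJ⟩ := exists_minor hlip
  rw [← val_pmin] at hJ
  have hJz : val z (pmin b J) ≠ 0 := fun h0 => hJ (hp.2 _ (hform b J hbf) h0)
  have hli : LinearIndependent E fun i => grad z (b i) := by
    rw [val_pmin] at hJz
    exact indep_of_minor hJz
  have hspan : ∀ G : MvPolynomial (Fin (c + 2 + 1)) k, IsForm G → val x G = 0 →
      grad z G ∈ Submodule.span E (Set.range fun i => grad z (b i)) := by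
    intro G hG hxG
    by_contra hcon
    have h1 := linearIndependent_finCons.2 ⟨hli, hcon⟩
    have h2 : (Fin.cons (grad z G) fun i => grad z (b i) : Fin (c + 1) → Fin (c + 2 + 1) → E) =
        fun i => grad z ((Fin.cons G b : Fin (c + 1) → MvPolynomial (Fin (c + 2 + 1)) k) i) := by
      funext i
      refine Fin.cases ?_ (fun i => ?_) i
      · rfl
      · rfl
    rw [h2] at h1
    obtain ⟨J', hJ'⟩ := exists_minor h1
    rw [← val_pmin] at hJ'
    obtain ⟨q, hq, hq'⟩ := Pool.Agent.X333.DC.varPts_sub (k := k) hz0 hJ'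
    rw [val_pmin] at hq'
    have h3 := indep_of_minor hq'
    have h4 := finrank_span_eq_card h3
    rw [Fintype.card_fin] at h4
    have h5 : Submodule.span k (Set.range fun i =>
        grad q ((Fin.cons G b : Fin (c + 1) → MvPolynomial (Fin (c + 2 + 1)) k) i)) ≤
        Submodule.span k {v | ∃ G : MvPolynomial (Fin (c + 2 + 1)) k, IsForm G ∧ val x G = 0 ∧
          v = grad q G} := by
      apply Submodule.span_mono
      rintro _ ⟨i, rfl⟩
      refine Fin.cases ?_ (fun i => ?_) i
      · exact ⟨G, hG, hxG, rfl⟩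
      · exact ⟨b i, hbf i, hbx i, rfl⟩
    have h6 := Submodule.finrank_mono h5
    rw [h4, hs q (hsub q hq)] at h6
    omega
  have hpos : 0 < Fintype.card (Fin c → Fin (c + 2 + 1)) := Fintype.card_pos
  have hm : Fintype.card (Fin c → Fin (c + 2 + 1)) - 1 + 1 =
      Fintype.card (Fin c → Fin (c + 2 + 1)) := Nat.sub_add_cancel hpos
  refine ⟨_, b, _, fun t => (Fintype.equivFin (Fin c → Fin (c + 2 + 1))).symm (Fin.cast hm t),
    fun i => ⟨hbf i, hbx i⟩, hli, hspan, ?_, rfl⟩
  intro J
  exact ⟨Fin.cast hm.symm (Fintype.equivFin _ J), by simp⟩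

theorem pht_zero {E : Type} [Field E] [Algebra k E] {m : ℕ} {f : Fin (m + 1) → E}
    (h : ∀ t, f t = 0) : pht k f = 0 := by
  have h0 : f = fun _ => 0 := funext h
  rw [h0]
  unfold Pool.Agent.W603.PV.pht Pool.Agent.W603.PV.pord
  have : IsEmpty {j : Fin (m + 1) // (0 : E) ≠ 0} := ⟨fun j => j.2 rfl⟩
  have h8 : ∀ P : Place k E, (⨅ _j : {j : Fin (m + 1) // (0 : E) ≠ 0}, P.ord (0 : E)) = 0 := by
    intro P
    rw [iInf, Set.range_eq_empty, Int.csInf_empty]
  simp_rw [h8]
  simp

/-- the height does not depend on the order and the repetitions of the coordinates -/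
theorem pht_enum {E T : Type} [Field E] [Algebra k E] (f : T → E) {m m' : ℕ}
    {u : Fin (m + 1) → T} {u' : Fin (m' + 1) → T} (hu : Function.Surjective u)
    (hu' : Function.Surjective u') : pht k (fun t => f (u t)) = pht k (fun t => f (u' t)) := by
  by_cases h : ∃ J, f J ≠ 0
  · obtain ⟨J, hJ⟩ := h
    have h1 : ∃ t, f (u t) ≠ 0 := by
      obtain ⟨t, rfl⟩ := hu J
      exact ⟨t, hJ⟩
    have h2 : ∃ t, f (u' t) ≠ 0 := by
      obtain ⟨t, rfl⟩ := hu' J
      exact ⟨t, hJ⟩
    have h3 : ∀ P : Place k E, pord P (fun t => f (u t)) = pord P (fun t => f (u' t)) := by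
      intro P
      apply le_antisymm
      · rw [Pool.Agent.Y221.AH.pord_le_iff P h2]
        intro t
        obtain ⟨t', ht'⟩ := hu (u' t)
        rw [← ht']
        exact (Pool.Agent.Y221.AH.pord_le_iff P h1 _).1 le_rfl t'
      · rw [Pool.Agent.Y221.AH.pord_le_iff P h1]
        intro t
        obtain ⟨t', ht'⟩ := hu' (u t)
        rw [← ht']
        exact (Pool.Agent.Y221.AH.pord_le_iff P h2 _).1 le_rfl t'
    unfold Pool.Agent.W603.PV.pht
    simp_rw [h3]
  · push Not at h
    rw [pht_zero fun t => h _, pht_zero fun t => h _]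

/-- the canonical degree is well defined -/
theorem can_unique {c : ℕ} {L : Type} [Field L] [Algebra k L] {x : Fin (c + 2 + 1) → L}
    {E : Type} [Field E] [Algebra k E] [IsFF k E] {z : Fin (c + 2 + 1) → E} {κ κ' : ℤ}
    (h : IsCanDegree k x z κ) (h' : IsCanDegree k x z κ') : κ = κ' := by
  classical
  obtain ⟨b, m, u, hb, hli, hsp, hu, rfl⟩ := h
  obtain ⟨b', m', u', hb', hli', hsp', hu', rfl⟩ := h'
  have hspan : Submodule.span E (Set.range fun i => grad z (b i)) =
      Submodule.span E ((fun i => grad z (b' i)) '' Set.univ) := by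
    rw [Set.image_univ]
    apply le_antisymm
    · rw [Submodule.span_le]
      rintro _ ⟨i, rfl⟩
      exact hsp' _ (hb i).1 (hb i).2
    · rw [Submodule.span_le]
      rintro _ ⟨i, rfl⟩
      exact hsp _ (hb' i).1 (hb' i).2
  obtain ⟨φ, -, T, hT0, hT⟩ := exists_phi hli hspan
  have hmin : ∀ J : Fin c → Fin (c + 2 + 1), (Matrix.of fun i l => grad z (b i) (J l)).det =
      (T * (Matrix.of fun l j => if φ l = j then (1 : E) else 0)).det *
        (Matrix.of fun i l => grad z (b' i) (J l)).det := by
    intro J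
    rw [← Matrix.det_mul, Matrix.mul_assoc]
    congr 1
    ext i l
    rw [Matrix.mul_apply, Matrix.of_apply, ← hT i, Finset.sum_apply]
    refine Finset.sum_congr rfl fun q _ => ?_
    rw [Matrix.mul_apply, Finset.sum_eq_single (φ q)]
    · simp
    · intro j _ hj
      rw [Matrix.of_apply, if_neg (Ne.symm hj), zero_mul]
    · intro hj
      exact absurd (Finset.mem_univ _) hj
  obtain ⟨J, hJ⟩ := exists_minor hli
  have hd : (T * (Matrix.of fun l j => if φ l = j then (1 : E) else 0)).det ≠ 0 := by
    intro h0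
    rw [hmin J, h0, zero_mul] at hJ
    exact hJ rfl
  have h1 : (fun t => (Matrix.of fun i l => grad z (b i) (u t l)).det) = fun t =>
      (T * (Matrix.of fun l j => if φ l = j then (1 : E) else 0)).det *
        (Matrix.of fun i l => grad z (b' i) (u t l)).det := funext fun t => hmin (u t)
  have h2 : ∃ t, (Matrix.of fun i l => grad z (b' i) (u t l)).det ≠ 0 := by
    obtain ⟨t, rfl⟩ := hu J
    refine ⟨t, fun h0 => ?_⟩
    rw [hmin, h0, mul_zero] at hJ
    exact hJ rfl
  rw [h1, pht_scale (k := k) h2 hd,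
    pht_enum (fun J : Fin c → Fin (c + 2 + 1) => (Matrix.of fun i l => grad z (b' i) (J l)).det)
      hu hu']

end Pool.Agent.X180.CD
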