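import Pool.Agent.X180.CD.Iso
import Pool.Agent.Y221.AH.Hp

/-!
The degrees of the curves in a surface and in a hypersurface are bounded.
-/

set_option autoImplicit false

open FF MvPolynomial Pool.Agent.W602.GT
open Pool.Agent.W603.PV (pht pht_scale)

namespace Pool.Agent.X180.CD

variable {k : Type} [Field k] [IsAlgClosed k] [CharZero k] {n : ℕ}

theorem pht_dh {L : Type} [Field L] [Algebra k L] [IsFF k L] {z : Fin (n + 1) → L}
    {j : Fin (n + 1)} (hz : z j ≠ 0) : pht k (dh z j) = pht k z := by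
  have h1 : ∃ i, dh z j i ≠ 0 := ⟨j, by unfold dh; rw [div_self hz]; exact one_ne_zero⟩
  have h2 := pht_scale (k := k) h1 hz
  rw [← dh_scale hz] at h2
  exact h2.symm

/-- The degree is determined by the equations. -/
theorem pht_ker {L L' : Type} [Field L] [Algebra k L] [IsFF k L] [Field L'] [Algebra k L']
    [IsFF k L'] {z : Fin (n + 1) → L} {z' : Fin (n + 1) → L'} {j : Fin (n + 1)} (hz : z j ≠ 0)
    (hz' : z' j ≠ 0) (hg : coords k z = ⊤) (hg' : coords k z' = ⊤)
    (h : RingHom.ker (aeval (R := k) (dh z j)) = RingHom.ker (aeval (R := k) (dh z' j))) :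
    pht k z = pht k z' := by
  obtain ⟨e, he, hi⟩ := exists_iso (alg_chart hg hz) (alg_chart hg' hz') h
  let _ : Algebra L L' := e.toRingHom.toAlgebra
  have h2 : IsScalarTower k L L' := IsScalarTower.of_algebraMap_eq fun x => (e.commutes x).symm
  have hb : Function.Bijective (algebraMap L L') := he
  have h3 : Module.finrank L L' = 1 := Module.finrank_of_bijective_algebraMap hb
  have h4 : FiniteDimensional L L' := Module.finite_of_finrank_pos (by rw [h3]; exact one_pos)
  have h1 : ∃ i, dh z j i ≠ 0 := ⟨j, by unfold dh; rw [div_self hz]; exact one_ne_zero⟩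
  have h5 := Pool.Agent.Y221.AH.pht_algebraMap (k := k) (K := L) (L := L') h1
  have h6 : (fun i => algebraMap L L' (dh z j i)) = dh z' j := funext hi
  rw [h6, h3, pht_dh hz', pht_dh hz] at h5
  rw [h5]
  simp

/-- **Boundedness.** Let `y` be the generic point of a surface in projective space and `H` a form
which does not vanish on it. The degrees of the curves in the surface and in the hypersurface
`H = 0` are bounded. -/
theorem exists_bound {K : Type} [Field K] [Algebra k K] {y : Fin (n + 1) → K}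
    (hgen : coords k y = ⊤) (hdim : Algebra.trdeg k K = (2 : ℕ))
    {H : MvPolynomial (Fin (n + 1)) k} (hH : IsForm H) (hyH : val y H ≠ 0) :
    ∃ B : ℕ, ∀ (L : Type) [Field L] [Algebra k L] [IsFF k L] (z : Fin (n + 1) → L), z ≠ 0 →
      coords k z = ⊤ → val z H = 0 →
      (∀ G : MvPolynomial (Fin (n + 1)) k, IsForm G → val y G = 0 → val z G = 0) →
      pht k z ≤ B := by
  classical
  have hone : ∀ (j : Fin (n + 1)) (Q : Ideal (MvPolynomial (Fin (n + 1)) k)), ∃ B : ℕ,
      ∀ (L : Type) [Field L] [Algebra k L] [IsFF k L] (z : Fin (n + 1) → L), z j ≠ 0 →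
        coords k z = ⊤ → RingHom.ker (aeval (R := k) (dh z j)) = Q → pht k z ≤ B := by
    intro j Q
    by_cases h : ∃ (L : Type) (_ : Field L) (_ : Algebra k L) (_ : IsFF k L)
      (z : Fin (n + 1) → L), z j ≠ 0 ∧ coords k z = ⊤ ∧
        RingHom.ker (aeval (R := k) (dh z j)) = Q
    · obtain ⟨L, _, _, _, z, hz, hg, hQ⟩ := h
      refine ⟨(pht k z).toNat, fun L' _ _ _ z' hz' hg' hQ' => ?_⟩
      rw [← pht_ker hz hz' hg hg' (hQ.trans hQ'.symm)]
      exact Int.self_le_toNat _
    · exact ⟨0, fun L i1 i2 i3 z hz hg hQ => (h ⟨L, i1, i2, i3, z, hz, hg, hQ⟩).elim⟩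
  choose B hB using hone
  have hfin : ∀ j : Fin (n + 1), (RingHom.ker (aeval (R := k) (dh y j)) ⊔
      Ideal.span {H}).minimalPrimes.Finite := fun j =>
    Ideal.finite_minimalPrimes_of_isNoetherianRing _ _
  refine ⟨∑ j, ∑ Q ∈ (hfin j).toFinset, B j Q, fun L _ _ hFF z hz hg hzH hsp => ?_⟩
  obtain ⟨j, hj⟩ := Function.ne_iff.1 hz
  have hj' : z j ≠ 0 := hj
  have hyj : y j ≠ 0 := by
    intro h0
    have h1 : val y (X j : MvPolynomial (Fin (n + 1)) k) = 0 := by
      unfold val
      rw [aeval_X, h0]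
    have h2 := hsp _ ⟨1, isHomogeneous_X k j⟩ h1
    unfold val at h2
    rw [aeval_X] at h2
    exact hj' h2
  have hmin := curve_min hgen hdim hyj hH hyH hj' hg (by exact_mod_cast hFF.trdeg) hzH hsp
  have h3 := hB j _ L z hj' hg rfl
  refine h3.trans ?_
  have h4 : B j (RingHom.ker (aeval (R := k) (dh z j))) ≤ ∑ Q ∈ (hfin j).toFinset, B j Q :=
    Finset.single_le_sum (f := fun Q => B j Q) (fun _ _ => Nat.zero_le _)
      ((hfin j).mem_toFinset.2 hmin)
  have h5 : ∑ Q ∈ (hfin j).toFinset, B j Q ≤ ∑ j, ∑ Q ∈ (hfin j).toFinset, B j Q :=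
    Finset.single_le_sum (f := fun j => ∑ Q ∈ (hfin j).toFinset, B j Q)
      (fun _ _ => Nat.zero_le _) (Finset.mem_univ j)
  exact_mod_cast h4.trans h5

end Pool.Agent.X180.CD
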