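import Pool.Agent.X180.CD.Chart

/-!
Generic points with the same equations.
-/

set_option autoImplicit false

open FF MvPolynomial Pool.Agent.W602.GT

namespace Pool.Agent.X180.CD

variable {k : Type} [Field k] {n : ℕ}

/-- Fields generated by points with the same equations. -/
theorem exists_iso {σ L L' : Type} [Field L] [Algebra k L] [Field L'] [Algebra k L'] {v : σ → L}
    {v' : σ → L'} (hv : IntermediateField.adjoin k (Set.range v) = ⊤)
    (hv' : IntermediateField.adjoin k (Set.range v') = ⊤)
    (h : RingHom.ker (aeval (R := k) v) = RingHom.ker (aeval (R := k) v')) :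
    ∃ e : L →ₐ[k] L', Function.Bijective e ∧ ∀ i, e (v i) = v' i := by
  have hp : (RingHom.ker (aeval (R := k) v)).IsPrime := RingHom.ker_isPrime _
  let Q := RingHom.ker (aeval (R := k) v)
  let R := MvPolynomial σ k ⧸ Q
  let E := FractionRing R
  have key : ∀ {M : Type} [Field M] [Algebra k M] (w : σ → M)
      (_ : IntermediateField.adjoin k (Set.range w) = ⊤) (_ : Q = RingHom.ker (aeval (R := k) w)),
      ∃ f : E →ₐ[k] M, Function.Bijective f ∧
        ∀ i, f (algebraMap R E (Ideal.Quotient.mk Q (X i))) = w i := by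
    intro M _ _ w hw hQ
    let g : R →ₐ[k] M := Ideal.Quotient.liftₐ Q (aeval w) fun a ha => by
      rw [hQ] at ha
      exact ha
    have hg : Function.Injective g := by
      rw [injective_iff_map_eq_zero]
      intro a ha
      obtain ⟨a, rfl⟩ := Ideal.Quotient.mk_surjective a
      rw [Ideal.Quotient.eq_zero_iff_mem, hQ]
      exact ha
    let f : E →ₐ[k] M := IsFractionRing.liftAlgHom (K := E) hg
    have hf : ∀ a : R, f (algebraMap R E a) = g a := fun a =>
      IsFractionRing.lift_algebraMap (K := E) hg a
    have hi : ∀ i, f (algebraMap R E (Ideal.Quotient.mk Q (X i))) = w i := by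
      intro i
      rw [hf]
      exact aeval_X w i
    refine ⟨f, ⟨f.toRingHom.injective, ?_⟩, hi⟩
    have h1 : f.fieldRange = ⊤ := by
      rw [eq_top_iff, ← hw, IntermediateField.adjoin_le_iff]
      rintro _ ⟨i, rfl⟩
      exact ⟨_, hi i⟩
    intro m
    have h2 : m ∈ f.fieldRange := by
      rw [h1]
      trivial
    exact h2
  obtain ⟨f, hf, hfi⟩ := key v hv rfl
  obtain ⟨f', hf', hfi'⟩ := key v' hv' h
  let e := AlgEquiv.ofBijective f hf
  refine ⟨f'.comp e.symm.toAlgHom, hf'.comp e.symm.bijective, fun i => ?_⟩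
  have h1 : e.symm (v i) = algebraMap R E (Ideal.Quotient.mk Q (X i)) := by
    rw [AlgEquiv.symm_apply_eq]
    exact (hfi i).symm
  change f' (e.symm (v i)) = v' i
  rw [h1, hfi']

end Pool.Agent.X180.CD
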