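import Pool.Agent.X180.CD.Exi

/-!
Curves of genus at most one, and their coverings, in surfaces.
-/

set_option autoImplicit false
set_option linter.unusedSectionVars false

open FF MvPolynomial Pool.Agent.W602.GT
open Pool.Agent.W603.PV (pht)
open Pool.Agent.W603.LV (canDeg)
open Pool.Agent.Y216 (OnVar)

namespace Pool.Agent.X180.CD

variable {k : Type} [Field k] [IsAlgClosed k] [CharZero k]

theorem pht_pos {n : ℕ} {E : Type} [Field E] [Algebra k E] [hE : IsFF k E] {z : Fin (n + 1) → E}
    (hz : ∃ j, z j ≠ 0) (hg : coords k z = ⊤) : 0 < pht k z := by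
  by_contra hcon
  rw [not_lt] at hcon
  obtain ⟨j, hj⟩ := hz
  have h1 : ∀ i, dh z j i ∈ Set.range (algebraMap k E) := by
    intro i
    by_cases hi : z i = 0
    · refine ⟨0, ?_⟩
      unfold dh
      rw [hi, zero_div, map_zero]
    · exact Pool.Agent.Y216.const_of_hgt
        ((Pool.Agent.W603.CX.hgt_le_pht z hi hj).trans hcon)
  have h2 := alg_chart hg hj
  have h3 : IntermediateField.adjoin k (Set.range (dh z j)) = ⊥ := by
    rw [IntermediateField.adjoin_eq_bot_iff]
    rintro _ ⟨i, rfl⟩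
    exact IntermediateField.mem_bot.2 (h1 i)
  rw [h3] at h2
  have h4 : Algebra.IsAlgebraic k E := by
    constructor
    intro e
    have h5 : e ∈ (⊥ : IntermediateField k E) := by
      rw [h2]
      trivial
    obtain ⟨a, rfl⟩ := IntermediateField.mem_bot.1 h5
    exact isAlgebraic_algebraMap a
  have h5 : Algebra.trdeg k E = 0 := trdeg_eq_zero_iff.2 h4
  rw [hE.trdeg] at h5
  exact one_ne_zero h5

/-- The smooth projective curve with function field `E` is a covering of degree at most `ρ` of a curve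
of genus at most one. -/
def Low (k : Type) [Field k] (ρ : ℕ) (E : Type) [Field E] [Algebra k E] : Prop :=
  ∃ (K : Type) (_ : Field K) (_ : Algebra k K) (_ : Algebra K E) (_ : IsScalarTower k K E)
    (_ : FiniteDimensional K E) (_ : IsFF k K), Module.finrank K E ≤ ρ ∧ canDeg k K ≤ 0

theorem low_curves {L : Type} [Field L] [Algebra k L] {M ρ : ℕ} {x : Fin (M + 1) → L}
    (hgen : coords k x = ⊤) (hdim : Algebra.trdeg k L = (2 : ℕ))
    (h : Pool.Agent.Y221.PB.CoverBound k ρ x) :
    {S : Set (MvPolynomial (Fin (M + 1)) k) | ∃ (E : Type) (_ : Field E) (_ : Algebra k E)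
      (_ : IsFF k E) (z : Fin (M + 1) → E), Low k ρ E ∧ OnVar k x z ∧ coords k z = ⊤ ∧
        S = {G | IsForm G ∧ val z G = 0}}.Finite ∧
    ∃ B : ℕ, ∀ (E : Type) [Field E] [Algebra k E] [IsFF k E] (z : Fin (M + 1) → E), Low k ρ E →
      OnVar k x z → coords k z = ⊤ → pht k z ≤ B := by
  classical
  obtain ⟨H, hH, hHx, A, hA⟩ := h
  have key : ∀ (E : Type) [Field E] [Algebra k E] [IsFF k E] (z : Fin (M + 1) → E), Low k ρ E →
      OnVar k x z → coords k z = ⊤ → val z H = 0 := by
    intro E _ _ _ z hlow hz hg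
    by_contra hzH
    obtain ⟨K, _, _, _, _, _, _, hr, hc⟩ := hlow
    have h1 := hA K E hr z hz hzH
    rw [max_eq_right hc, mul_zero] at h1
    exact absurd (pht_pos hz.1 hg) (not_lt.2 h1)
  constructor
  · have hfin : ∀ j : Fin (M + 1), (RingHom.ker (aeval (R := k) (dh x j)) ⊔
        Ideal.span {H}).minimalPrimes.Finite := fun j =>
      Ideal.finite_minimalPrimes_of_isNoetherianRing _ _
    refine (Set.finite_iUnion fun j => (hfin j).image fun Q : Ideal (MvPolynomial (Fin (M + 1)) k) =>
      {G | IsForm G ∧ G ∈ Q}).subset ?_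
    rintro S ⟨E, _, _, hFF, z, hlow, hz, hg, rfl⟩
    have hzH := key E z hlow hz hg
    obtain ⟨j, hj⟩ := hz.1
    have hxj : x j ≠ 0 := by
      intro h0
      have h1 : val x (X j : MvPolynomial (Fin (M + 1)) k) = 0 := by
        unfold val
        rw [aeval_X, h0]
      have h2 := hz.2 _ ⟨1, isHomogeneous_X k j⟩ h1
      unfold val at h2
      rw [aeval_X] at h2
      exact hj h2
    have hmin := curve_min hgen hdim hxj hH hHx hj hg (by exact_mod_cast hFF.trdeg) hzH hz.2
    refine Set.mem_iUnion.2 ⟨j, _, hmin, ?_⟩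
    ext G
    constructor
    · rintro ⟨h1, h2⟩
      exact ⟨h1, (form_chart hj h1).2 h2⟩
    · rintro ⟨h1, h2⟩
      exact ⟨h1, (form_chart hj h1).1 h2⟩
  · obtain ⟨B, hB⟩ := exists_bound hgen hdim hH hHx
    exact ⟨B, fun E _ _ _ z hlow hz hg => hB E z (Function.ne_iff.2 hz.1) hg
      (key E z hlow hz hg) hz.2⟩

end Pool.Agent.X180.CD
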