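import Mathlib

/-!
Specialisations of points with the same transcendence degree.
-/

set_option autoImplicit false

open MvPolynomial

namespace Pool.Agent.X180.CD

variable {k : Type} [Field k] {σ : Type} [Finite σ]

/-- **Specialisations.** If the point `v` is a specialisation of `u` and the transcendence degree is
the same, then the two points satisfy the same equations. -/
theorem spec_eq {K E : Type} [Field K] [Algebra k K] [Field E] [Algebra k E] {u : σ → K}
    {v : σ → E} (hv : Algebra.IsAlgebraic (Algebra.adjoin k (Set.range v)) E)
    (hdim : Algebra.trdeg k K ≤ Algebra.trdeg k E)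
    (hsp : ∀ g : MvPolynomial σ k, aeval u g = 0 → aeval v g = 0) (g : MvPolynomial σ k)
    (hg : aeval v g = 0) : aeval u g = 0 := by
  classical
  obtain ⟨B, -, hB, hbas⟩ := exists_isTranscendenceBasis_between (R := k) (A := E) ∅
    (Set.range v) (Set.empty_subset _) (by
      exact algebraicIndependent_empty_type)
  have hBfin : B.Finite := (Set.finite_range v).subset hB
  have : Finite B := hBfin
  choose b hb using fun i : B => hB i.2
  have hindv : AlgebraicIndependent k (fun i : B => v (b i)) := by
    have h1 : (fun i : B => v (b i)) = ((↑) : B → E) := funext hb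
    rw [h1]
    exact hbas.1
  have hindu : AlgebraicIndependent k (fun i : B => u (b i)) := by
    rw [algebraicIndependent_iff]
    intro p hp
    have h1 : aeval u (rename b p) = 0 := by
      rw [aeval_rename]
      exact hp
    have h2 := hsp _ h1
    rw [aeval_rename] at h2
    exact (algebraicIndependent_iff.1 hindv) p h2
  have hcard : Algebra.trdeg k K ≤ Cardinal.mk B := by
    rw [hbas.cardinalMk_eq_trdeg]
    exact hdim
  have hbu : IsTranscendenceBasis k (fun i : B => u (b i)) :=
    hindu.isTranscendenceBasis_of_trdeg_le_of_finite hcard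
  by_contra ha
  have halg : IsAlgebraic (Algebra.adjoin k (Set.range fun i : B => u (b i))) (aeval u g) :=
    hbu.isAlgebraic.isAlgebraic _
  obtain ⟨q, hq0, hq⟩ := halg.exists_nonzero_coeff_and_aeval_eq_zero
    (mem_nonZeroDivisors_of_ne_zero ha)
  have hlift : ∀ a : Algebra.adjoin k (Set.range fun i : B => u (b i)),
      ∃ h : MvPolynomial B k, aeval (fun i : B => u (b i)) h = (a : K) := by
    rintro ⟨x, hx⟩
    have h1 := hx
    rw [Algebra.adjoin_range_eq_range_aeval] at h1
    exact h1
  choose H hH using hlift
  let G : MvPolynomial σ k := ∑ i ∈ Finset.range (q.natDegree + 1), rename b (H (q.coeff i)) * g ^ i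
  have hG : aeval u G = 0 := by
    rw [map_sum]
    rw [Polynomial.aeval_eq_sum_range] at hq
    rw [← hq]
    refine Finset.sum_congr rfl fun i _ => ?_
    rw [map_mul, map_pow, aeval_rename]
    have h2 := hH (q.coeff i)
    rw [Algebra.smul_def]
    congr 1
  have hG2 := hsp _ hG
  rw [map_sum, Finset.sum_eq_single 0] at hG2
  · rw [map_mul, aeval_rename, pow_zero, map_one, mul_one] at hG2
    have h3 := (algebraicIndependent_iff.1 hindv) _ hG2
    apply hq0
    have h4 := hH (q.coeff 0)
    rw [h3, map_zero] at h4
    exact Subtype.ext h4.symm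
  · intro i _ hi
    rw [map_mul, map_pow, hg, zero_pow hi, mul_zero]
  · intro h
    exact absurd (Finset.mem_range.2 (Nat.succ_pos _)) h

end Pool.Agent.X180.CD
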